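import Pool.Agent.H747.LieDim.Group
import Pool.Graph.R_seed8.H816R3.Main

/-!
# MP_c6ee25_gt, Q2: `dim β_G G = dim G` for every Lie group `G`

The objects of the problem file are formalised as follows.

* `rucAlgebra G` is the algebra `A` of the bounded continuous functions `f : G → ℂ` such that
  `sup_x |f (g x) - f x| → 0` as `g → e`, with the supremum norm.
* `BetaG G` is the maximal ideal space of `A` (the space of the nonzero multiplicative linear
  functionals with the weak-star topology); by the problem file this is `β_G G`.
* `CoveringDimLE X m` says that the covering dimension of `X` is at most `m`: every finite open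
  cover of `X` has a finite open refinement of order at most `m + 1`.
* A Lie group of dimension `n` is a Hausdorff `LieGroup` over `𝓘(ℝ, E)`, where `E` is a real normed
  space of dimension `n`.  The number of components is arbitrary (no second countability), and so
  is the smoothness class `k` (`k = 0` gives all locally Euclidean groups).

The theorem says that for every natural number `m` one has `dim β_G G ≤ m` if and only if
`dim G ≤ m`, where `dim G` is the dimension of the manifold `G`; that is, `dim β_G G = dim G`.

## Proof

1. (`Pool.Graph.R_seed8.H816R3`, library) For every locally compact group the covering dimensions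
   of `G` and of `β_G G` agree: `G` is a finite union of sets `K x_i` (`i ∈ J_a`) with separated
   translates of one compact set `K`, and the closure of such a set in `β_G G` is `K × β J_a`.
2. (here) A locally compact group has dimension at most `n` as soon as its compact subsets have
   (`Pool.Agent.H747.LieDim.dimLE_of_compact`); a compact subset of the manifold `G` is covered by
   finitely many compact coordinate balls.
3. (here) A ball `B` of an `n`-dimensional normed space does not have dimension less than `n`
   (`Pool.Agent.H747.LieDim.finrank_le_of_relDim_ball`): a fine cover of order at most `n` would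
   give a map `f` of `B` that moves the points by little and whose image lies in finitely many
   affine subspaces of dimension less than `n`, a null set, whereas by the Brouwer fixed point
   theorem the image of `f` contains the concentric ball of half the radius.
-/

set_option autoImplicit false

open Filter Topology
open scoped BoundedContinuousFunction Manifold ContDiff

namespace Pool.Agent.Results.MP_c6ee25_gt.LieGroups

/-- The covering dimension of `X` is at most `m`: every finite open cover of `X` has a finite open
refinement of order at most `m + 1` (each point lies in at most `m + 1` members). -/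
def CoveringDimLE (X : Type) [TopologicalSpace X] (m : ℕ) : Prop :=
  ∀ (ι : Type) [Finite ι] (U : ι → Set X), (∀ i, IsOpen (U i)) → (⋃ i, U i) = Set.univ →
    ∃ (κ : Type) (_ : Finite κ) (V : κ → Set X),
      (∀ k, IsOpen (V k)) ∧ (⋃ k, V k) = Set.univ ∧ (∀ k, ∃ i, V k ⊆ U i) ∧
      ∀ x, Nat.card {k // x ∈ V k} ≤ m + 1

/-- The algebra of the bounded continuous functions `f : G → ℂ` such that
`sup_x |f (g x) - f x| → 0` as `g → e`. -/
noncomputable def rucAlgebra (G : Type) [TopologicalSpace G] [Group G] : Subalgebra ℂ (G →ᵇ ℂ) :=
  (Pool.Agent.H816R3.RUC G).copy
    {f | ∀ ε : ℝ, 0 < ε → ∀ᶠ g in 𝓝 (1 : G), ∀ x : G, ‖f (g * x) - f x‖ < ε} (by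
      ext f
      simp only [Filter.eventually_iff_exists_mem]
      rfl)

/-- The maximal `G`-compactification `β_G G` of the left translation action of `G` on itself: the
maximal ideal space of `rucAlgebra G`. -/
abbrev BetaG (G : Type) [TopologicalSpace G] [Group G] : Type :=
  ↥(WeakDual.characterSpace ℂ ↥(rucAlgebra G))

/-- **`dim β_G G = dim G` for every Lie group `G`.** -/
theorem result (E : Type) [NormedAddCommGroup E] [NormedSpace ℝ E] [FiniteDimensional ℝ E]
    (k : WithTop ℕ∞) (G : Type) [TopologicalSpace G] [T2Space G] [Group G] [ChartedSpace E G]
    [LieGroup 𝓘(ℝ, E) k G] (m : ℕ) :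
    CoveringDimLE (BetaG G) m ↔ Module.finrank ℝ E ≤ m := by
  have htop : IsTopologicalGroup G := topologicalGroup_of_lieGroup 𝓘(ℝ, E) k
  have hloc : LocallyCompactSpace G := ChartedSpace.locallyCompactSpace E G
  rw [← Pool.Agent.H747.LieDim.dimLE_group_iff E G m]
  have hA : rucAlgebra G = Pool.Agent.H816R3.RUC G := Subalgebra.copy_eq _ _ _
  have h1 : CoveringDimLE (BetaG G) m ↔ Pool.Agent.H816R3.DimLE (Pool.Agent.H816R3.Amb G) m := by
    unfold BetaG
    rw [hA]
    exact Iff.rfl
  rw [h1]
  exact ⟨fun h => Pool.Agent.H816R3.dimLE_of_dimLE_amb h,
    fun h => Pool.Agent.H816R3.dimLE_amb_of_dimLE h⟩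

end Pool.Agent.Results.MP_c6ee25_gt.LieGroups
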